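import Mathlib
import Pool.Agent.H50.Buchi.Main

/-!
# Hyperbolicity of the Büchi varieties of forms in several variables

Let `t_0, …, t_N` be points of `ℂ^(r+1)` and let `X ⊆ P^N` be the set of all `[x_0 : … : x_N]` for
which there is a form `F` of degree `e` in `r + 1` variables with `x_i ^ d = F(t_i)` for all `i`.
It is a complete intersection of `N + 1 - C(r+e, r)` hypersurfaces of degree `d`, and its dimension
is `C(r+e, r) - 1`.  We assume that no form of degree `M` vanishes at all the `t_i`, where `M` is
large enough with respect to `r`, `e`, `d`; all `M ≥ (3 r + 1) e` will do, for every `d ≥ 2`.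
Explicit points with this property, for which `X` is smooth, are given by
`Pool.Agent.H50.Buchi.exists_points`.

We show that `X` is Brody hyperbolic if and only if it contains no rational curve, if and only if
it contains no line, if and only if `e < d`, and more precisely that every non-constant entire
curve in `X` is contained in a linear subspace of `X`.

For `e = 1` the set `X` is the Kummer cover of exponent `d ≥ 2` of `P^r` that is branched along the
hyperplanes with the coefficients `t_i`.  For `r = 1`, `e = d = 2`, `t_i = (1, i)`, `N ≥ 8` we get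
Vojta's theorem on the entire curves in Büchi's surfaces.

The proof is self-contained.  It contains an estimate for curves that are tangent to order `k` to
many hyperplanes (`Pool.Agent.H86.Buchi`, `Pool.Agent.H86.Kummer`), and the structure of analytic
families of forms (`Pool.Agent.H50.Kum`).
-/

set_option autoImplicit false

open MvPolynomial Filter
open Pool.Agent.H42.GGL Pool.Agent.H50.Buchi Pool.Agent.H86.Kummer Pool.Agent.H84.Waring

namespace Pool.Agent.Results.MP_c6ff8d_ag.BuchiVarieties

/-- `X` is Brody hyperbolic: every holomorphic map `ℂ → X` is constant.  For closed `X` this is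
equivalent to Kobayashi hyperbolicity by Brody's theorem. -/
def IsBrodyHyperbolic {N : ℕ} (X : Set (PSpace N)) : Prop :=
  ∀ f : ℂ → PSpace N, (∀ z, HolomorphicAt f z) → (∀ z, f z ∈ X) → ∀ z w, f z = f w

/-- `X` contains a rational curve: there is a non-constant map
`s ↦ [A_0(s) : … : A_N(s)]` from the affine line to `X` given by polynomials `A_i` without common
zero.  (For closed `X` it extends to a non-constant morphism from the projective line to `X`.) -/
def ContainsRationalCurve {N : ℕ} (X : Set (PSpace N)) : Prop :=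
  ∃ (A : Fin (N + 1) → Polynomial ℂ) (f : ℂ → PSpace N),
    (∀ s, ∃ h : (fun i => (A i).eval s) ≠ 0,
      f s = Projectivization.mk ℂ (fun i => (A i).eval s) h) ∧
    (∀ s, f s ∈ X) ∧ ∃ s s', f s ≠ f s'

/-- Rational curves are entire curves. -/
lemma not_hyperbolic_of_rational {N : ℕ} {X : Set (PSpace N)} (h : ContainsRationalCurve X) :
    ¬ IsBrodyHyperbolic X := by
  obtain ⟨A, f, hA, hX, s, s', hst⟩ := h
  intro hyp
  apply hst
  refine hyp f (fun z => ⟨fun w i => (A i).eval w, ?_, Eventually.of_forall fun w => hA w⟩) hX s s'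
  rw [analyticAt_pi_iff]
  intro i
  exact (A i).differentiable.analyticAt z

/-- Lines are rational curves. -/
lemma rational_of_line {N : ℕ} {X : Set (PSpace N)} {p q : PSpace N} (hqp : q ≠ p)
    (h : lineThrough p q ⊆ X) : ContainsRationalCurve X := by
  have hne : ∀ s : ℂ, p.rep + s • q.rep ≠ 0 := by
    intro s h0
    by_cases hs : s = 0
    · rw [hs, zero_smul, add_zero] at h0
      exact p.rep_nonzero h0
    · apply hqp
      rw [← q.mk_rep, ← p.mk_rep, Projectivization.mk_eq_mk_iff']
      refine ⟨-s⁻¹, ?_⟩
      have h1 : p.rep = -(s • q.rep) := eq_neg_of_add_eq_zero_left h0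
      rw [h1, smul_neg, neg_smul, neg_neg, smul_smul, inv_mul_cancel₀ hs, one_smul]
  let A : Fin (N + 1) → Polynomial ℂ := fun i =>
    Polynomial.C (p.rep i) + Polynomial.C (q.rep i) * Polynomial.X
  have hA : ∀ s, (fun i => (A i).eval s) = p.rep + s • q.rep := by
    intro s
    funext i
    simp only [A, Polynomial.eval_add, Polynomial.eval_C, Polynomial.eval_mul, Polynomial.eval_X,
      Pi.add_apply, Pi.smul_apply, smul_eq_mul]
    ring
  have hne' : ∀ s, (fun i => (A i).eval s) ≠ 0 := fun s => by
    rw [hA]
    exact hne s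
  refine ⟨A, fun s => Projectivization.mk ℂ _ (hne' s), fun s => ⟨hne' s, rfl⟩, fun s => ?_,
    0, 1, ?_⟩
  · apply h
    obtain ⟨a, ha⟩ := Projectivization.exists_smul_eq_mk_rep ℂ _ (hne' s)
    unfold lineThrough
    rw [Set.mem_ofPred_eq, ← ha, Units.smul_def, hA]
    exact Submodule.smul_mem _ _ (Submodule.add_mem _ (Submodule.subset_span (by simp))
      (Submodule.smul_mem _ _ (Submodule.subset_span (by simp))))
  · intro heq
    rw [Projectivization.mk_eq_mk_iff'] at heq
    obtain ⟨a, ha⟩ := heq
    rw [hA, hA, zero_smul, add_zero, one_smul] at ha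
    -- `a (p + q) = p`
    have ha0 : a ≠ 0 := by
      rintro rfl
      rw [zero_smul] at ha
      exact p.rep_nonzero ha.symm
    apply hqp
    rw [← q.mk_rep, ← p.mk_rep, Projectivization.mk_eq_mk_iff']
    refine ⟨a⁻¹ - 1, ?_⟩
    have h1 : p.rep + q.rep = a⁻¹ • p.rep := by
      rw [← ha, smul_smul, inv_mul_cancel₀ ha0, one_smul, ha]
    rw [sub_smul, one_smul, ← h1, add_sub_cancel_left]

/-- **Theorem.** Let `r, e ≥ 1`, `d ≥ 2`, let `M` satisfy the numerical condition `h` (for example
`M ≥ (3 r + 1) e`), and let `t_0, …, t_N` be points of `ℂ^(r+1)` at which no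
non-zero form of degree `M` vanishes.  Let
`X = {[x] : x_i ^ d = F(t_i) for all i, for some form F of degree e}`.
* `X` is the zero set of `c = N + 1 - C(r+e, r)` forms of degree `d`, with `c d > N + 1`; their
  gradients are linearly independent at all points of `X` if every `C(r+e, r)` of the `t_i` impose
  independent conditions on forms of degree `e`.
* `X` is Brody hyperbolic if and only if it contains no rational curve, if and only if it contains
  no line, if and only if `e < d`.
* Every non-constant entire curve in `X` is contained in a linear subspace of `P^N` that is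
  contained in `X`. -/
theorem result {N r e d M : ℕ} (hr : 1 ≤ r) (he : 1 ≤ e) (hd : 2 ≤ d)
    (h : (3 * r + 1) * e ≤ M ∨
      (2 * e ≤ M ∧ ∀ μ, 1 ≤ μ → μ ≤ e → μ < d → 2 * (r + (M - e)).choose r <
        ((d + μ - 1) / μ + 1) * (r + (M + μ - 1 - 2 * e)).choose r))
    (t : Fin (N + 1) → Fin (r + 1) → ℂ) (ht : Avoids M t) :
    (∃ c, c + (r + e).choose r = N + 1 ∧ N + 1 < c * d ∧
      ∃ G : Fin c → MvPolynomial (Fin (N + 1)) ℂ,
        (∀ k, (G k).IsHomogeneous d) ∧ buchiSet e d t = projectiveSet G ∧
        ((∀ S : Finset (Fin (N + 1)), S.card = (r + e).choose r → Avoids e (fun i : S => t i)) →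
          ∀ p ∈ buchiSet e d t,
            LinearIndependent ℂ (fun k i => eval p.rep (pderiv i (G k))))) ∧
    (IsBrodyHyperbolic (buchiSet e d t) ↔ ¬ ContainsRationalCurve (buchiSet e d t)) ∧
    (IsBrodyHyperbolic (buchiSet e d t) ↔
      ¬ ∃ p q, q ≠ p ∧ lineThrough p q ⊆ buchiSet e d t) ∧
    (IsBrodyHyperbolic (buchiSet e d t) ↔ e < d) ∧
    (∀ f, IsEntireCurve (buchiSet e d t) f → ∃ V : Submodule ℂ (Fin (N + 1) → ℂ),
      (∀ z, (f z).rep ∈ V) ∧ ∀ p : PSpace N, p.rep ∈ V → p ∈ buchiSet e d t) := by
  have hnum : Pool.Agent.H86.Buchi.Num r e d M := h.elim (numerical_condition' hr) id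
  obtain ⟨h1, h2, h3, -, -, -, -⟩ := buchi_main (t := t) hr he hd hnum ht
  obtain ⟨h4, h5⟩ := exists_line_iff (t := t) hr hd hnum ht
  have hhyp : IsBrodyHyperbolic (buchiSet e d t) ↔ ¬ ∃ f, IsEntireCurve (buchiSet e d t) f := by
    constructor
    · rintro h ⟨f, hf1, hf2, z, w, hzw⟩
      exact hzw (h f hf1 hf2 z w)
    · intro h f hf1 hf2 z w
      by_contra hzw
      exact h ⟨f, hf1, hf2, z, w, hzw⟩
  have hlt : IsBrodyHyperbolic (buchiSet e d t) ↔ e < d := by
    rw [hhyp, h5, not_le]
  have hline : IsBrodyHyperbolic (buchiSet e d t) ↔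
      ¬ ∃ p q, q ≠ p ∧ lineThrough p q ⊆ buchiSet e d t := by
    rw [hlt, h4, not_le]
  refine ⟨h1, ⟨fun h h' => not_hyperbolic_of_rational h' h, fun h => ?_⟩, hline, hlt, ?_⟩
  · rw [hline]
    rintro ⟨p, q, hqp, hpq⟩
    exact h (rational_of_line hqp hpq)
  · intro f hf
    obtain ⟨b, a, hba, hfz⟩ := h3 f hf
    obtain ⟨hsub, V, -, hV⟩ := h2 b a hba
    refine ⟨V, fun z => ?_, fun p hp => ?_⟩
    · have := hfz z
      rw [hV] at this
      exact this
    · apply hsub
      rw [hV]
      exact hp

end Pool.Agent.Results.MP_c6ff8d_ag.BuchiVarieties
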