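import Pool.Agent.H86.Log.LFinal

/-!
# Hyperbolicity and general type for maps to spaces of forms

Let `X ⊆ P^N` be a projective set with a family of divisors `D_t = {𝒜(x; t) = 0}`, where
`𝒜(x; T)` is homogeneous of degree `δ ≥ 1` in `x = (x_0, …, x_N)` and of degree `e` in the
parameter `T = (T_0, …, T_r)`, such that `𝒜(p; ·) ≠ 0` for `p ∈ X`.  In other words, `X` has a
finite morphism `p ↦ 𝒜(p; ·)` to the projective space of the forms of degree `e` in `r + 1`
variables, and `D_t` is the inverse image of the hyperplane of the forms `F` with `F(t) = 0`.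

We assume that `D_(t_i)` has multiplicity at least `d_i` along each of its components, for
finitely many parameters `t_i` which are not contained in a hypersurface of degree `M`, where `M`
and the `d_i` satisfy a numerical condition.

Then the entire curves in `X` are contained in the closed set of the `p ∈ X` for which `𝒜(p; ·)`
is reducible, and the subvarieties of `X` which are not contained in this set are of general type.
If it is empty, for example if `e = 1`, i.e. if `X` is finite over `P^r` and ramified over the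
hyperplanes `t_i · y = 0`, then `X` is hyperbolic and all its subvarieties are of general type.
-/

set_option autoImplicit false

namespace Pool.Agent.Results.MP_c6ff8d_ag.FormsGeneralType

open Pool.Agent.H42.GGL (PSpace projectiveSet IsEntireCurve zariskiClosureIn)
open Pool.Agent.H86.Kummer (Avoids)
open Pool.Agent.H86.Buchi (spec member IsBiform NumW)
open Pool.Agent.H24.Orb (HasMult)
open Pool.Agent.H86.Lang

/-- **Hyperbolicity and general type for maps to spaces of forms.** -/
theorem result {N r e m M δ : ℕ} (hr : 1 ≤ r) (hm : 2 ≤ m)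
    -- the parameters `t i`, which are on no hypersurface of degree `M`, and the multiplicities `d i`
    {ι : Type} [Finite ι] {d : ι → ℕ} (hd : ∀ i, 1 ≤ d i) {t : ι → Fin (r + 1) → ℂ}
    (ht : Avoids M t)
    -- the numerical condition, or simple conditions that imply it
    (hnum : NumW r e m M d ∨ ((∀ i, m ≤ d i) ∧
      ((3 * r + 1) * e ≤ M ∨ (e = 1 ∧ 2 * r < (m - 1) * (M - 1)))))
    -- the family of divisors on the projective set `X = projectiveSet G`
    {𝒜 : MvPolynomial (Fin (r + 1)) (MvPolynomial (Fin (N + 1)) ℂ)} (h𝒜 : IsBiform e δ 𝒜)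
    (hδ : 1 ≤ δ) {c : ℕ} {G : Fin c → MvPolynomial (Fin (N + 1)) ℂ}
    (hG : ∀ k, ∃ g, (G k).IsHomogeneous g) (hfree : ∀ p ∈ projectiveSet G, spec 𝒜 p.rep ≠ 0)
    (hmult : ∀ i, HasMult (d i) (projectiveSet G) δ (member 𝒜 (t i))) :
    -- the entire curves
    (∀ f, IsEntireCurve (projectiveSet G) f → ∀ z, f z ∈ reduciblePoints 𝒜 (projectiveSet G)) ∧
    -- the subvarieties
    (∀ (n N' : ℕ) (Z : Set (PSpace N')) (φ : PSpace N' → PSpace N), 1 ≤ n →
      IsProjectiveManifold n Z → IsHolomorphicMap n Z φ → (∀ z ∈ Z, φ z ∈ projectiveSet G) →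
      ImmersionSomewhere n Z φ → ¬ (φ '' Z ⊆ reduciblePoints 𝒜 (projectiveSet G)) →
      IsGeneralType n Z) ∧
    -- the exceptional set
    zariskiClosureIn (projectiveSet G) (reduciblePoints 𝒜 (projectiveSet G)) =
      reduciblePoints 𝒜 (projectiveSet G) ∧
    (e = 1 → reduciblePoints 𝒜 (projectiveSet G) = ∅) ∧
    (reduciblePoints 𝒜 (projectiveSet G) = ∅ →
      (∀ f, ¬ IsEntireCurve (projectiveSet G) f) ∧
        SubvarietiesOfGeneralType (projectiveSet G)) := by
  have hN : NumW r e m M d := by
    rcases hnum with h | ⟨h1, h2 | ⟨rfl, h2⟩⟩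
    · exact h
    · obtain ⟨h3, h4⟩ := Pool.Agent.H50.Buchi.numerical_condition' (d := m) hr h2
      exact Pool.Agent.H86.Buchi.numW_of_num h3 h1 (by omega) h4
    · obtain ⟨h3, h4⟩ := Pool.Agent.H50.Buchi.numerical_condition_one (d := m) hr h2
      exact Pool.Agent.H86.Buchi.numW_of_num h3 h1 (by omega) h4
  have D : Pool.Agent.H86.Buchi.Data r e m M δ d t 𝒜 G (projectiveSet G) :=
    { hr := hr
      hm := hm
      hd := hd
      num := hN
      avoids := ht
      biform := h𝒜
      free₀ := hfree
      mult := hmult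
      hδ := hδ
      hG := hG
      hXG := fun p hp k => hp k
      free := fun p hp => hfree p hp }
  have h1 : ∀ f, IsEntireCurve (projectiveSet G) f →
      ∀ z, f z ∈ reduciblePoints 𝒜 (projectiveSet G) :=
    fun f hf z => ⟨hf.2.1 z, fun hirr => not_hasPow hm hirr (D.entire hf z)⟩
  have h2 : ∀ (n N' : ℕ) (Z : Set (PSpace N')) (φ : PSpace N' → PSpace N), 1 ≤ n →
      IsProjectiveManifold n Z → IsHolomorphicMap n Z φ → (∀ z ∈ Z, φ z ∈ projectiveSet G) →
      ImmersionSomewhere n Z φ → ¬ (φ '' Z ⊆ reduciblePoints 𝒜 (projectiveSet G)) →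
      IsGeneralType n Z := by
    intro n N' Z φ hn hZ hφ hφX him hred
    apply Pool.Agent.H86.Log.generalType'' D hn hZ hφ hφX him
    by_contra hcon
    push Not at hcon
    apply hred
    rintro _ ⟨z, hz, rfl⟩
    exact ⟨hφX z hz, hcon z hz⟩
  refine ⟨h1, h2, closure_reduciblePoints h𝒜 hfree, ?_, fun hemp => ⟨?_, ?_⟩⟩
  · rintro rfl
    rw [Set.eq_empty_iff_forall_notMem]
    rintro p ⟨hp, hred⟩
    exact hred (irreducible_of_linear (Pool.Agent.H86.Buchi.spec_homogeneous h𝒜 _) (hfree p hp))
  · intro f hf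
    exact Set.notMem_empty _ (hemp ▸ h1 f hf 0)
  · intro n N' Z φ hn hZ hφ hφX him
    apply h2 n N' Z φ hn hZ hφ hφX him
    intro hsub
    obtain ⟨z, hz⟩ := hZ.nonempty
    exact Set.notMem_empty _ (hemp ▸ hsub (Set.mem_image_of_mem φ hz))

end Pool.Agent.Results.MP_c6ff8d_ag.FormsGeneralType
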