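import Mathlib
import Pool.Agent.H24.Low.Mixed

/-!
# Hyperbolicity of general complete intersections and general sections of projective sets
-/

set_option autoImplicit false

namespace Pool.Agent.Results.MP_c6ff8d_ag.LowDegreeSections

open Pool.Agent.H42.GGL (PSpace VanishesAt projectiveSet IsEntireCurve)
open Pool.Agent.H24.Brody (SmoothCI DiscBound)
open Pool.Agent.H24.Low (Splits)

/-- **General sections of projective sets are hyperbolic**, for many hypersurfaces of arbitrary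
degrees `≥ 2`. -/
theorem result {M h n c : ℕ} (hn : 1 ≤ n)
    -- the degrees of the hypersurfaces
    {D : Fin c → ℕ}
    (hD : ((∀ k, 2 ≤ D k) ∧ 12 * n ≤ c + 8) ∨
      (∃ d, 2 ≤ d ∧ (∀ k, d ∣ D k ∧ D k ≠ 0) ∧ 3 * max n (2 * n + 1 - d) ≤ c) ∨
      Splits n D)
    -- a projective set `Y`, with a finite linear projection to the space of dimension `n + c`
    {a : Fin h → ℕ} {H : Fin h → MvPolynomial (Fin (M + 1)) ℂ} (hH : ∀ j, (H j).IsHomogeneous (a j))
    {L : Fin (n + c + 1) → MvPolynomial (Fin (M + 1)) ℂ} (hL : ∀ i, (L i).IsHomogeneous 1)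
    (hfree : ∀ p ∈ projectiveSet H, ∃ i, ¬ VanishesAt (L i) p) :
    ∃ (F : Fin c → MvPolynomial (Fin (M + 1)) ℂ) (δ K : ℝ), 0 < δ ∧
      (∀ k, (F k).IsHomogeneous (D k)) ∧
      -- all the systems of equations which are close to `(H, F)`
      (∀ G : Fin (h + c) → MvPolynomial (Fin (M + 1)) ℂ,
        (∀ k, (G k).IsHomogeneous (Fin.append a D k)) →
        (∀ k s, ‖(G k).coeff s - (Fin.append H F k).coeff s‖ < δ) →
        DiscBound G K ∧ (∀ f, ¬ IsEntireCurve (projectiveSet G) f) ∧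
        ((∀ j, 1 ≤ a j) → h + c ≤ M → (projectiveSet G).Nonempty)) ∧
      -- the smooth complete intersections are dense
      ((∀ j, 1 ≤ a j) → ∀ G₀ : Fin (h + c) → MvPolynomial (Fin (M + 1)) ℂ,
        (∀ k, (G₀ k).IsHomogeneous (Fin.append a D k)) →
        ∀ ε > 0, ∃ G : Fin (h + c) → MvPolynomial (Fin (M + 1)) ℂ,
          (∀ k, (G k).IsHomogeneous (Fin.append a D k)) ∧
          (∀ k s, ‖(G k).coeff s - (G₀ k).coeff s‖ < ε) ∧ SmoothCI G) := by
  obtain ⟨F, δ, K, hδ, hF, h1, h2⟩ := Pool.Agent.H24.Low.mixed_sections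
    (Pool.Agent.H24.Low.splits_of_cases hn hD) hH hL hfree
  refine ⟨F, δ, K, hδ, hF, fun G hG hGF => ?_, h2⟩
  obtain ⟨h3, h4, -, -, -, -, h7⟩ := h1 G hG hGF
  exact ⟨h3, h4, h7⟩

end Pool.Agent.Results.MP_c6ff8d_ag.LowDegreeSections
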