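import Mathlib
import Pool.Agent.H84.GT.Group
import Pool.Agent.H84.GT.Examples

/-!
# Hyperbolicity of power covers of arbitrary projective varieties

Let `X ⊆ P^N` be the zero set of homogeneous polynomials `G_1, …, G_c`.  We assume that the system
is sparse: the exponents of each `G_k` lie in a finite set `S` of exponents of the same degree, in
which the exponents of each variable are congruent modulo some `d ≥ max(1, n²)`, where `n` is the
number of elements of `S` minus the rank of those `G_j` that have exponents in `S` (`S`, `n` and `d`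
may depend on `k`).

We show that every non-constant entire curve in `X` lies in the Zariski closure of an orbit,
contained in `X`, of an algebraic group of diagonal matrices which contains a one-parameter group
acting non-trivially on the curve.  In particular `X` is (Brody) hyperbolic if and only if it
contains no rational curve, if and only if it contains no monomial curve
`τ ↦ [τ^(m_0) x_0 : … : τ^(m_N) x_N]`.

Examples (`Pool.Agent.H84.GT.isSparse_expand`, `isSparse_of_card`, `isSparse_fermat`):
* the power covers (Kummer covers) `X_d = {x : [x_0^d : … : x_N^d] ∈ Y}` of an arbitrary projective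
  variety `Y ⊆ P^N`, for all `d ≥ n²`, where `n` only depends on the equations of `Y`: if all of
  them have the degree `e` and rank `r`, then one can take `n = binom(N + e, e) - r`, and if each
  has at most `n + 1` monomials, one can take this `n`;
* in particular (`e = 1`) the smooth Kummer covers of exponent `d ≥ (n + 1)²` of `P^n` that are
  branched along any number of hyperplanes in general position;
* `n = d = 1`: arbitrary binomials, so that power covers inside of projective toric varieties are
  covered as well.
-/

set_option autoImplicit false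

open Filter Topology
open Pool.Agent.H42.GGL Pool.Agent.H84.GT

namespace Pool.Agent.Results.MP_c6ff8d_ag.PowerCovers

/-- `X` is Brody hyperbolic: every holomorphic map `ℂ → X` is constant.  For closed `X` this is
equivalent to Kobayashi hyperbolicity by Brody's theorem. -/
def IsBrodyHyperbolic {N : ℕ} (X : Set (PSpace N)) : Prop :=
  ∀ f : ℂ → PSpace N, (∀ z, HolomorphicAt f z) → (∀ z, f z ∈ X) → ∀ z w, f z = f w

/-- `X` contains a rational curve: there is a non-constant map
`t ↦ [A_0(t) : … : A_N(t)]` from the affine line to `X` given by polynomials `A_i` without common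
zero.  (For closed `X` it extends to a non-constant morphism from the projective line to `X`.) -/
def ContainsRationalCurve {N : ℕ} (X : Set (PSpace N)) : Prop :=
  ∃ (A : Fin (N + 1) → Polynomial ℂ) (f : ℂ → PSpace N),
    (∀ t, ∃ h : (fun i => (A i).eval t) ≠ 0,
      f t = Projectivization.mk ℂ (fun i => (A i).eval t) h) ∧
    (∀ t, f t ∈ X) ∧ ∃ s t, f s ≠ f t

/-- `X` contains a monomial curve `τ ↦ [τ^(m_0) x_0 : … : τ^(m_N) x_N]`, `τ ≠ 0`, where the `m_i`
are not all equal on the set of the `i` with `x_i ≠ 0` (so that the curve is not constant). -/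
def ContainsMonomialCurve {N : ℕ} (X : Set (PSpace N)) : Prop :=
  ∃ (m : Fin (N + 1) → ℕ) (x : PSpace N), Moves m x ∧ OrbitIn X m x

/-- Rational curves are entire curves. -/
lemma not_hyperbolic_of_rational {N : ℕ} {X : Set (PSpace N)} (h : ContainsRationalCurve X) :
    ¬ IsBrodyHyperbolic X := by
  obtain ⟨A, f, hA, hX, s, t, hst⟩ := h
  intro hyp
  apply hst
  refine hyp f (fun z => ⟨fun w i => (A i).eval w, ?_, Eventually.of_forall fun w => hA w⟩) hX s t
  rw [analyticAt_pi_iff]
  intro i
  exact (A i).differentiable.analyticAt z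

/-- A monomial curve in a closed set `X` extends to a rational curve in `X`. -/
lemma rational_of_monomial {N c : ℕ} {e : Fin c → ℕ} {G : Fin c → MvPolynomial (Fin (N + 1)) ℂ}
    (hG : ∀ k, (G k).IsHomogeneous (e k)) (h : ContainsMonomialCurve (projectiveSet G)) :
    ContainsRationalCurve (projectiveSet G) := by
  classical
  obtain ⟨m, x, ⟨i, j, hi, hj, hij⟩, horb⟩ := h
  -- the least weight on the support
  let S : Finset (Fin (N + 1)) := Finset.univ.filter fun i => x.rep i ≠ 0
  have hiS : i ∈ S := Finset.mem_filter.mpr ⟨Finset.mem_univ i, hi⟩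
  obtain ⟨i₀, hi₀S, hi₀⟩ := S.exists_min_image m ⟨i, hiS⟩
  have hi₀' : x.rep i₀ ≠ 0 := (Finset.mem_filter.mp hi₀S).2
  let A : Fin (N + 1) → Polynomial ℂ := fun i =>
    Polynomial.C (x.rep i) * Polynomial.X ^ (m i - m i₀)
  have hA : ∀ t i, (A i).eval t = x.rep i * t ^ (m i - m i₀) := by
    intro t i
    simp only [A]
    rw [Polynomial.eval_mul, Polynomial.eval_C, Polynomial.eval_pow, Polynomial.eval_X]
  have hne : ∀ t, (fun i => (A i).eval t) ≠ 0 := by
    intro t h0
    have h1 := congrFun h0 i₀
    simp only [hA, Nat.sub_self, pow_zero, mul_one, Pi.zero_apply] at h1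
    exact hi₀' h1
  have hscale : ∀ t, ∀ i, t ^ m i * x.rep i = t ^ m i₀ * (A i).eval t := by
    intro t i
    rw [hA]
    by_cases hi : x.rep i = 0
    · rw [hi]
      ring
    · have h1 : m i₀ ≤ m i := hi₀ i (Finset.mem_filter.mpr ⟨Finset.mem_univ i, hi⟩)
      calc t ^ m i * x.rep i = t ^ (m i₀ + (m i - m i₀)) * x.rep i := by
            rw [Nat.add_sub_cancel' h1]
        _ = _ := by rw [pow_add]; ring
  have hmem : ∀ k t, MvPolynomial.eval (fun i => (A i).eval t) (G k) = 0 := by
    intro k
    have hcomp : ∀ t, MvPolynomial.eval (fun i => (A i).eval t) (G k) =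
        ((MvPolynomial.aeval A) (G k)).eval t := by
      intro t
      have h1 : (Polynomial.evalRingHom t).comp
          (MvPolynomial.aeval A : MvPolynomial (Fin (N + 1)) ℂ →ₐ[ℂ] Polynomial ℂ).toRingHom =
          MvPolynomial.eval fun i => (A i).eval t := by
        ext
        · simp
        · simp
      rw [← h1]
      rfl
    have hzero : (MvPolynomial.aeval A) (G k) = 0 := by
      apply Polynomial.eq_zero_of_infinite_isRoot
      refine Set.Infinite.mono (s := {t : ℂ | t ≠ 0}) ?_ ?_
      · intro t ht
        obtain ⟨h1, h2⟩ := horb t ht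
        have h3 : MvPolynomial.eval (fun i => t ^ m i * x.rep i) (G k) = 0 :=
          (vanishesAt_mk (hG k) _ h1).mp (h2 k)
        have h4 : (fun i => t ^ m i * x.rep i) = fun i => t ^ m i₀ * (A i).eval t :=
          funext (hscale t)
        rw [h4, eval_smul_hom (hG k)] at h3
        have h5 : (t ^ m i₀) ^ e k ≠ 0 := pow_ne_zero _ (pow_ne_zero _ ht)
        have h6 := (mul_eq_zero.mp h3).resolve_left h5
        rw [hcomp] at h6
        exact h6
      · exact Set.Infinite.mono (fun x hx => hx)
          ((Set.finite_singleton (0 : ℂ)).infinite_compl)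
    intro t
    rw [hcomp, hzero, Polynomial.eval_zero]
  refine ⟨A, fun t => Projectivization.mk ℂ _ (hne t), fun t => ⟨hne t, rfl⟩, fun t k => ?_,
    1, 2, ?_⟩
  · exact (vanishesAt_mk (hG k) _ (hne t)).mpr (hmem k t)
  · intro heq
    rw [Projectivization.mk_eq_mk_iff'] at heq
    obtain ⟨a, ha⟩ := heq
    have h4 : ∀ k, x.rep k ≠ 0 → a * 2 ^ (m k - m i₀) = 1 := by
      intro k hk
      have := congrFun ha k
      simp only [Pi.smul_apply, smul_eq_mul, hA, one_pow, mul_one] at this
      have h5 : (a * 2 ^ (m k - m i₀) - 1) * x.rep k = 0 := by linear_combination this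
      exact sub_eq_zero.mp ((mul_eq_zero.mp h5).resolve_right hk)
    have h5 := h4 i hi
    have h6 := h4 j hj
    have ha0 : a ≠ 0 := by
      rintro rfl
      rw [zero_mul] at h5
      exact zero_ne_one h5
    have h7 : (2 : ℂ) ^ (m i - m i₀) = 2 ^ (m j - m i₀) :=
      mul_left_cancel₀ ha0 (h5.trans h6.symm)
    have h8 : (2 : ℕ) ^ (m i - m i₀) = 2 ^ (m j - m i₀) := by exact_mod_cast h7
    have h9 := Nat.pow_right_injective le_rfl h8
    have h10 : m i₀ ≤ m i := hi₀ i hiS
    have h11 : m i₀ ≤ m j := hi₀ j (Finset.mem_filter.mpr ⟨Finset.mem_univ j, hj⟩)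
    omega

/-- **Theorem.** Let `X ⊆ P^N` be the set of common zeros of homogeneous polynomials `G_k`, each
of which is sparse: its exponents lie in a finite set `S` of exponents of the same degree, in which
the exponents of each variable are congruent modulo some `d ≥ max(1, n²)`, where `n` is the number
of elements of `S` minus the rank of the `G_j` with exponents in `S`.

* For every non-constant entire curve `f` in `X` there are an algebraic group `H = diagGroup L` of
  diagonal matrices such that the orbits `H ⬝ f(z)` of all points of the curve lie in `X`, and a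
  point `z₀` such that the whole curve lies in the Zariski closure of the orbit `H ⬝ f(z₀)`; and
  `H` contains a one-parameter group `τ ↦ diag(τ^(m_0), …, τ^(m_N))` which moves `f(z₀)`.
* `X` is Brody hyperbolic if and only if it contains no rational curve, if and only if it contains
  no monomial curve. -/
theorem result (N c : ℕ) (e : Fin c → ℕ) (G : Fin c → MvPolynomial (Fin (N + 1)) ℂ)
    (hG : ∀ k, (G k).IsHomogeneous (e k)) (hS : ∀ k, IsSparse ∅ G (G k)) :
    (∀ f : ℂ → PSpace N, IsEntireCurve (projectiveSet G) f →
      ∃ (L : AddSubgroup (Fin (N + 1) → ℤ)) (z₀ : ℂ),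
        (∀ z, diagOrbit L (f z) ⊆ projectiveSet G) ∧
        (∀ z, f z ∈ zariskiClosureIn (projectiveSet G) (diagOrbit L (f z₀))) ∧
        ∃ m : Fin (N + 1) → ℕ, (∀ l ∈ L, ∑ i, (m i : ℤ) * l i = 0) ∧ Moves m (f z₀)) ∧
    (IsBrodyHyperbolic (projectiveSet G) ↔ ¬ ContainsRationalCurve (projectiveSet G)) ∧
    (IsBrodyHyperbolic (projectiveSet G) ↔ ¬ ContainsMonomialCurve (projectiveSet G)) := by
  have h1 : projectiveSet G = quasiSet ∅ G := by
    ext p
    simp [projectiveSet, quasiSet]
  have h2 : projectiveSet G =
      quasiProjectiveSet ∅ G (fun k : Fin 0 => (0 : MvPolynomial (Fin (N + 1)) ℂ)) := by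
    ext p
    simp [projectiveSet, quasiProjectiveSet]
  have hmono : ¬ IsBrodyHyperbolic (projectiveSet G) → ContainsMonomialCurve (projectiveSet G) := by
    intro hyp
    unfold IsBrodyHyperbolic at hyp
    push Not at hyp
    obtain ⟨f, hf1, hf2, z, w, hzw⟩ := hyp
    have hf : IsEntireCurve (projectiveSet G) f := ⟨hf1, hf2, z, w, hzw⟩
    rw [h2] at hf
    obtain ⟨m, hm, z₀, hz₀⟩ := entire_oneParam ∅ e (fun _ : Fin 0 => 0) G
      (fun _ : Fin 0 => (0 : MvPolynomial (Fin (N + 1)) ℂ)) hG (fun l => Fin.elim0 l) hS
      (fun l => Fin.elim0 l) f hf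
    refine ⟨m, f z₀, hz₀, ?_⟩
    rw [h2]
    exact hm z₀
  refine ⟨?_, ⟨?_, ?_⟩, ⟨?_, ?_⟩⟩
  · intro f hf
    rw [h1] at hf ⊢
    exact exists_diagGroup_rank ∅ e G hG hS f hf
  · exact fun h h2 => not_hyperbolic_of_rational h2 h
  · intro h
    by_contra hcon
    exact h (rational_of_monomial hG (hmono hcon))
  · exact fun h h2 => not_hyperbolic_of_rational (rational_of_monomial hG h2) h
  · intro h
    by_contra hcon
    exact h (hmono hcon)

end Pool.Agent.Results.MP_c6ff8d_ag.PowerCovers
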